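import Pool.Agent.Helper65.RP.Defs

/-!
# Iterates of a regular polynomial map: degrees, leading forms and Jacobians
-/

set_option autoImplicit false

namespace Pool.Agent.Helper76.RP

open MvPolynomial Filter Topology
open Pool.Agent.Helper65.RP

section top
variable {K : Type} [Field K] {σ τ : Type}

/-- `q` has degree at most `D` and its component of degree `D` is `r`. -/
def Top (D : ℕ) (q r : MvPolynomial σ K) : Prop :=
  q.totalDegree ≤ D ∧ homogeneousComponent D q = r

lemma coeff_of_lt {q : MvPolynomial σ K} {a : ℕ} (h : q.totalDegree ≤ a) {m : σ →₀ ℕ}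
    (hm : a < m.degree) : coeff m q = 0 := by
  apply coeff_eq_zero_of_totalDegree_lt
  rw [← Finsupp.degree_apply]
  omega

lemma Top.mul {a b : ℕ} {q r q' r' : MvPolynomial σ K} (h : Top a q r) (h' : Top b q' r') :
    Top (a + b) (q * q') (r * r') := by
  classical
  obtain ⟨h1, rfl⟩ := h
  obtain ⟨h2, rfl⟩ := h'
  refine ⟨(totalDegree_mul _ _).trans (by omega), ?_⟩
  ext m
  rw [coeff_homogeneousComponent, coeff_mul, coeff_mul]
  split_ifs with hm
  · apply Finset.sum_congr rfl
    intro x hx
    rw [Finset.HasAntidiagonal.mem_antidiagonal] at hx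
    have hd : x.1.degree + x.2.degree = a + b := by
      rw [← map_add, hx, hm]
    rw [coeff_homogeneousComponent, coeff_homogeneousComponent]
    rcases lt_trichotomy x.1.degree a with h3 | h3 | h3
    · have : b < x.2.degree := by omega
      rw [coeff_of_lt h2 this]
      simp
    · have : x.2.degree = b := by omega
      simp [h3, this]
    · rw [coeff_of_lt h1 h3]
      simp
  · symm
    apply Finset.sum_eq_zero
    intro x hx
    rw [Finset.HasAntidiagonal.mem_antidiagonal] at hx
    have hd : x.1.degree + x.2.degree = m.degree := by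
      rw [← map_add, hx]
    rw [coeff_homogeneousComponent, coeff_homogeneousComponent]
    by_cases h3 : x.1.degree = a
    · have : x.2.degree ≠ b := by
        intro h4
        omega
      simp [this]
    · simp [h3]

lemma top_C (c : K) : Top 0 (C c : MvPolynomial σ K) (C c) :=
  ⟨by simp, by simp⟩

lemma Top.pow {a : ℕ} {q r : MvPolynomial σ K} (h : Top a q r) (k : ℕ) :
    Top (k * a) (q ^ k) (r ^ k) := by
  induction k with
  | zero => simpa using (top_C (σ := σ) (1 : K))
  | succ k ih =>
    rw [pow_succ, pow_succ, Nat.succ_mul]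
    exact ih.mul h

lemma Top.prod {ι : Type} (s : Finset ι) {a : ι → ℕ} {q r : ι → MvPolynomial σ K}
    (h : ∀ i ∈ s, Top (a i) (q i) (r i)) :
    Top (∑ i ∈ s, a i) (∏ i ∈ s, q i) (∏ i ∈ s, r i) := by
  classical
  induction s using Finset.induction_on with
  | empty => simpa using (top_C (σ := σ) (1 : K))
  | insert i s hi ih =>
    rw [Finset.sum_insert hi, Finset.prod_insert hi, Finset.prod_insert hi]
    exact (h i (Finset.mem_insert_self _ _)).mul
      (ih fun j hj => h j (Finset.mem_insert_of_mem hj))

lemma Top.sum {ι : Type} (s : Finset ι) {a : ℕ} {q r : ι → MvPolynomial σ K}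
    (h : ∀ i ∈ s, Top a (q i) (r i)) : Top a (∑ i ∈ s, q i) (∑ i ∈ s, r i) := by
  refine ⟨totalDegree_finsetSum_le fun i hi => (h i hi).1, ?_⟩
  rw [map_sum]
  exact Finset.sum_congr rfl fun i hi => (h i hi).2

lemma Top.of_lt {a b : ℕ} {q r : MvPolynomial σ K} (h : Top a q r) (hab : a < b) :
    Top b q 0 :=
  ⟨h.1.trans hab.le, homogeneousComponent_eq_zero _ _ (lt_of_le_of_lt h.1 hab)⟩

lemma top_monomial {e : ℕ} {g r : σ → MvPolynomial τ K} (hg : ∀ i, Top e (g i) (r i))
    (m : σ →₀ ℕ) (c : K) :
    Top (m.degree * e) (bind₁ g (monomial m c)) (bind₁ r (monomial m c)) := by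
  rw [bind₁_monomial, bind₁_monomial]
  have h1 : Top (∑ i ∈ m.support, m i * e) (∏ i ∈ m.support, g i ^ m i)
      (∏ i ∈ m.support, r i ^ m i) := Top.prod _ fun i _ => (hg i).pow _
  have h2 := (top_C (σ := τ) c).mul h1
  rwa [zero_add, ← Finset.sum_mul, ← Finsupp.degree_apply] at h2

lemma top_bind {d e : ℕ} (hde : 1 ≤ e ∨ d = 0) {g r : σ → MvPolynomial τ K}
    (hg : ∀ i, Top e (g i) (r i)) {p : MvPolynomial σ K} (hp : p.totalDegree ≤ d) :
    Top (d * e) (bind₁ g p) (bind₁ r (homogeneousComponent d p)) := by
  classical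
  have h1 : bind₁ g p = ∑ m ∈ p.support, bind₁ g (monomial m (coeff m p)) := by
    conv_lhs => rw [p.as_sum, map_sum]
  have h2 : bind₁ r (homogeneousComponent d p) =
      ∑ m ∈ p.support, bind₁ r (homogeneousComponent d (monomial m (coeff m p))) := by
    conv_lhs => rw [p.as_sum, map_sum, map_sum]
  rw [h1, h2]
  apply Top.sum
  intro m hm
  have hmd : m.degree ≤ d := by
    have := le_totalDegree hm
    rw [Finsupp.sum, ← Finsupp.degree_apply] at this
    exact this.trans hp
  have hm1 : (monomial m (coeff m p) : MvPolynomial σ K) ∈ homogeneousSubmodule σ K m.degree := by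
    rw [mem_homogeneousSubmodule]
    exact isHomogeneous_monomial _ rfl
  rw [homogeneousComponent_of_mem hm1]
  rcases hmd.lt_or_eq with h3 | h3
  · rw [if_neg h3.ne', map_zero]
    refine (top_monomial hg m (coeff m p)).of_lt ?_
    rcases hde with h4 | h4
    · exact Nat.mul_lt_mul_of_pos_right h3 h4
    · omega
  · rw [if_pos h3.symm, ← h3]
    exact top_monomial hg m (coeff m p)

end top

section chain
variable {K : Type} [Field K] {σ τ : Type} [Fintype σ]

lemma pderiv_bind (g : σ → MvPolynomial τ K) (p : MvPolynomial σ K) (l : τ) :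
    pderiv l (bind₁ g p) = ∑ j, bind₁ g (pderiv j p) * pderiv l (g j) := by
  classical
  induction p using MvPolynomial.induction_on with
  | C c => simp
  | add p q hp hq =>
    simp only [map_add, hp, hq, add_mul, Finset.sum_add_distrib]
  | mul_X p i hp =>
    have h1 : ∀ x, bind₁ g (pderiv x (p * X i)) * pderiv l (g x) =
        bind₁ g (pderiv x p) * pderiv l (g x) * g i +
          (if x = i then bind₁ g p * pderiv l (g i) else 0) := by
      intro x
      rw [pderiv_mul, map_add, map_mul, map_mul, bind₁_X_right, pderiv_X]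
      by_cases hx : x = i
      · subst hx
        simp
        ring
      · rw [if_neg hx, Pi.single_eq_of_ne (Ne.symm hx)]
        simp
        ring
    rw [Finset.sum_congr rfl fun x _ => h1 x, Finset.sum_add_distrib, ← Finset.sum_mul, ← hp,
      map_mul, bind₁_X_right, pderiv_mul]
    simp

end chain

section iterates
variable {K Kb : Type} [Field K] [Field Kb] [Algebra K Kb] {N d : ℕ}
  {f : Fin N → MvPolynomial (Fin N) K}

/-- K1 -/
theorem eval_iter (k : ℕ) (x : Fin N → K) (i : Fin N) :
    eval x (iter f k i) = (fun (x : Fin N → K) i => eval x (f i))^[k] x i := by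
  induction k generalizing i with
  | zero => simp [iter]
  | succ k ih =>
    rw [Function.iterate_succ_apply', iter]
    have h1 : (fun j => eval x (iter f k j)) = (fun (x : Fin N → K) i => eval x (f i))^[k] x :=
      funext ih
    have h2 := aeval_bind₁ (S := K) x (iter f k) (f i)
    simp only [aeval_eq_eval] at h2
    rw [← h1]
    exact h2

/-- K2 -/
theorem orb_add (a : Fin N → K) (n k : ℕ) (i : Fin N) :
    orb f a (n + k) i = eval (orb f a n) (iter f k i) := by
  rw [eval_iter, orb, orb, add_comm, Function.iterate_add_apply]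

lemma aeval_iter_eq_zero {F : Fin N → MvPolynomial (Fin N) K}
    (hF : ∀ y : Fin N → Kb, (∀ i, aeval y (F i) = 0) → y = 0) (k : ℕ) (y : Fin N → Kb)
    (hy : ∀ i, aeval y (iter F k i) = 0) : y = 0 := by
  induction k with
  | zero =>
    funext i
    simpa [iter] using hy i
  | succ k ih =>
    apply ih
    have h1 := hF (fun j => aeval y (iter F k j)) (fun i => by
      have := hy i
      rwa [iter, aeval_bind₁] at this)
    exact fun i => congrFun h1 i

/-- K3 -/
theorem regular_iter [IsAlgClosed Kb] (hf : Regular Kb d f) (k : ℕ) :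
    Regular Kb (d ^ k) (iter f k) ∧
      ∀ i, homogeneousComponent (d ^ k) (iter f k i) =
        iter (fun i => homogeneousComponent d (f i)) k i := by
  have h1 : ∀ k i, Top (d ^ k) (iter f k i) (iter (fun i => homogeneousComponent d (f i)) k i) := by
    intro k
    induction k with
    | zero =>
      intro i
      refine ⟨by simp [iter, totalDegree_X], ?_⟩
      rw [pow_zero]
      exact homogeneousComponent_eq_self (isHomogeneous_X K i)
    | succ k ih =>
      intro i
      rw [pow_succ']
      refine top_bind ?_ ih (hf.1 i)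
      rcases Nat.eq_zero_or_pos d with h | h
      · exact Or.inr h
      · exact Or.inl (Nat.one_le_pow _ _ h)
  refine ⟨⟨fun i => (h1 k i).1, fun y hy => ?_⟩, fun i => (h1 k i).2⟩
  refine aeval_iter_eq_zero hf.2 k y fun i => ?_
  rw [← (h1 k i).2]
  exact hy i

/-- K4 -/
theorem jac_iter (G : Fin N → MvPolynomial (Fin N) K) (k : ℕ) (y : Fin N → Kb)
    (h : ∀ j < k, (Matrix.of fun i l => aeval (fun i => aeval y (iter G j i)) (pderiv l (G i)) :
      Matrix (Fin N) (Fin N) Kb).det ≠ 0) :
    (Matrix.of fun i l => aeval y (pderiv l (iter G k i)) : Matrix (Fin N) (Fin N) Kb).det ≠ 0 := by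
  classical
  induction k with
  | zero =>
    have h1 : (Matrix.of fun i l => aeval y (pderiv l (iter G 0 i)) :
        Matrix (Fin N) (Fin N) Kb) = 1 := by
      ext i l
      rw [Matrix.of_apply, iter, pderiv_X, Matrix.one_apply]
      by_cases hil : i = l
      · subst hil
        simp
      · rw [Pi.single_eq_of_ne hil, if_neg hil]
        simp
    rw [h1, Matrix.det_one]
    exact one_ne_zero
  | succ k ih =>
    have h1 : (Matrix.of fun i l => aeval y (pderiv l (iter G (k + 1) i)) :
        Matrix (Fin N) (Fin N) Kb) =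
        (Matrix.of fun i l => aeval (fun i => aeval y (iter G k i)) (pderiv l (G i)) :
          Matrix (Fin N) (Fin N) Kb) *
        (Matrix.of fun i l => aeval y (pderiv l (iter G k i)) : Matrix (Fin N) (Fin N) Kb) := by
      ext i l
      rw [Matrix.mul_apply]
      simp only [Matrix.of_apply]
      rw [iter, pderiv_bind, map_sum]
      exact Finset.sum_congr rfl fun j _ => by rw [map_mul, aeval_bind₁]
    rw [h1, Matrix.det_mul]
    exact mul_ne_zero (h k (Nat.lt_succ_self k)) (ih fun j hj => h j (hj.trans (Nat.lt_succ_self k)))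

end iterates

end Pool.Agent.Helper76.RP
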